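import Pool.Agent.R299.PI.Baire

open Set Filter Topology

namespace Pool.Agent.Results.MP_20b9c8_an.DiagMinimal

/-- A topological dynamical system: a (nonempty) compact metric space with a homeomorphism. -/
structure Sys where
  pt : Type
  [met : MetricSpace pt]
  [cpt : CompactSpace pt]
  [ne : Nonempty pt]
  T : pt ≃ₜ pt

attribute [instance] Sys.met Sys.cpt Sys.ne

/-- Every two-sided orbit is dense. -/
def Sys.Minimal (X : Sys) : Prop := ∀ x : X.pt, Dense (Set.range fun n : ℤ => (X.T ^ n) x)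

/-- The powers of the homeomorphism are equicontinuous. -/
def Sys.Equicont (X : Sys) : Prop := Equicontinuous fun (n : ℤ) (x : X.pt) => (X.T ^ n) x

/-- A factor map. -/
structure Factor (X Y : Sys) where
  map : X.pt → Y.pt
  cont : Continuous map
  surj : Function.Surjective map
  comm : ∀ x, map (X.T x) = Y.T (map x)

/-- Proximal extension. -/
def Factor.Proximal {X Y : Sys} (π : Factor X Y) : Prop :=
  ∀ x x' : X.pt, π.map x = π.map x' → ⨅ n : ℤ, dist ((X.T ^ n) x) ((X.T ^ n) x') = 0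

/-- Isometric (equicontinuous) extension. -/
def Factor.Isometric {X Y : Sys} (π : Factor X Y) : Prop :=
  ∀ ε > 0, ∃ δ > 0, ∀ x x' : X.pt, π.map x = π.map x' → dist x x' < δ →
    ∀ n : ℤ, dist ((X.T ^ n) x) ((X.T ^ n) x') < ε

/-- A transfinite tower indexed by a well ordered set I with least and greatest element: it
starts with the one-point system, every successor step is a proximal or an isometric extension,
and at limits the system is the inverse limit of the previous ones (the projections, which are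
surjective and compatible, separate the points). -/
structure Tower (I : Type) [LinearOrder I] [WellFoundedLT I] [OrderBot I] [OrderTop I] where
  sys : I → Sys
  proj : ∀ i j : I, i ≤ j → Factor (sys j) (sys i)
  proj_refl : ∀ (i : I) (x : (sys i).pt), (proj i i le_rfl).map x = x
  proj_trans : ∀ (i j k : I) (hij : i ≤ j) (hjk : j ≤ k) (x : (sys k).pt),
    (proj i j hij).map ((proj j k hjk).map x) = (proj i k (hij.trans hjk)).map x
  bot : Subsingleton (sys ⊥).pt
  succ : ∀ (i j : I) (h : i ⋖ j), (proj i j h.le).Proximal ∨ (proj i j h.le).Isometric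
  lim : ∀ j : I, j ≠ ⊥ → (∀ i, ¬ i ⋖ j) → ∀ x x' : (sys j).pt,
    (∀ (i : I) (h : i < j), (proj i j h.le).map x = (proj i j h.le).map x') → x = x'

/-- PI systems: minimal systems with a proximal (minimal) extension which is the top of a
tower. -/
def Sys.IsPI (X : Sys) : Prop :=
  X.Minimal ∧ ∃ (I : Type) (_ : LinearOrder I) (_ : WellFoundedLT I) (_ : OrderBot I)
    (_ : OrderTop I) (τ : Tower I) (θ : Factor (τ.sys ⊤) X), (τ.sys ⊤).Minimal ∧ θ.Proximal

/-- The orbit closure of z is a minimal subsystem. -/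
def IsMinimalPoint {Z : Type} [TopologicalSpace Z] (S : Z ≃ₜ Z) (z : Z) : Prop :=
  ∀ w ∈ closure (Set.range fun n : ℤ => (S ^ n) z),
    closure (Set.range fun n : ℤ => (S ^ n) w) = closure (Set.range fun n : ℤ => (S ^ n) z)

/-- The homeomorphism T × T² of X × X. -/
def Sys.prodSq (X : Sys) : X.pt × X.pt ≃ₜ X.pt × X.pt := X.T.prodCongr (X.T ^ 2)

/-! ### Construction -/

open Pool.Agent.R299.PI

/-- The one-point system. -/
def pointSys : Sys where
  pt := PUnit
  T := Homeomorph.refl _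

/-- The rotation of the circle R/Z by α. -/
noncomputable def rotSys (α : B) : Sys where
  pt := B
  T := Homeomorph.addRight α

lemma zpow_cocycle {Z : Type} [TopologicalSpace Z] (T : Z ≃ₜ Z) (φ : Z → B) (α : B)
    (h : ∀ x, φ (T x) = φ x + α) (n : ℤ) : ∀ x, φ ((T ^ n) x) = φ x + n • α := by
  induction n using Int.induction_on with
  | zero => intro x; simp
  | succ n ih =>
    intro x
    rw [zpow_add_one, Homeomorph.mul_apply, ih, h, add_zsmul, one_zsmul]
    abel
  | pred n ih =>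
    intro x
    have h1 : φ ((T⁻¹) x) = φ x - α := by
      have h2 := h ((T⁻¹) x)
      rw [Homeomorph.inv_apply, Homeomorph.apply_symm_apply] at h2
      rw [Homeomorph.inv_apply, h2]
      abel
    rw [zpow_sub_one, Homeomorph.mul_apply, ih, h1, sub_zsmul, one_zsmul]
    abel

lemma zpow_prodCongr {Z : Type} [TopologicalSpace Z] (S T : Z ≃ₜ Z) (n : ℤ) :
    ∀ p : Z × Z, ((S.prodCongr T) ^ n) p = ((S ^ n) p.1, (T ^ n) p.2) := by
  induction n using Int.induction_on with
  | zero => intro x; simp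
  | succ n ih =>
    intro x
    rw [zpow_add_one, Homeomorph.mul_apply, ih, zpow_add_one, Homeomorph.mul_apply,
      zpow_add_one, Homeomorph.mul_apply]
    rfl
  | pred n ih =>
    intro x
    rw [zpow_sub_one, Homeomorph.mul_apply, ih, zpow_sub_one, Homeomorph.mul_apply,
      zpow_sub_one, Homeomorph.mul_apply]
    rfl


/-- The homeomorphism attached to a pair in the closure. -/
noncomputable def homeo {α : B} {F : C(E, E) × C(E, E)} (hF : F ∈ FF α) : E ≃ₜ E where
  toFun := F.1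
  invFun := F.2
  left_inv x := (FF_props hF x).2.1
  right_inv x := (FF_props hF x).1
  continuous_toFun := F.1.continuous
  continuous_invFun := F.2.continuous

noncomputable def genSys {α : B} {F : C(E, E) × C(E, E)} (hF : F ∈ FF α) : Sys where
  pt := E
  T := homeo hF

lemma homeo_pow {α : B} {F : C(E, E) × C(E, E)} (hF : F ∈ FF α) (m : ℕ) (x : E) :
    ((homeo hF) ^ (m : ℤ)) x = (F.1)^[m] x := by
  rw [zpow_natCast]
  induction m generalizing x with
  | zero => rfl
  | succ m ih =>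
    rw [pow_succ, Homeomorph.mul_apply, ih, Function.iterate_succ_apply]
    rfl

lemma homeo_fst {α : B} {F : C(E, E) × C(E, E)} (hF : F ∈ FF α) (n : ℤ) (x : E) :
    (((homeo hF) ^ n) x).1 = x.1 + n • α :=
  zpow_cocycle (homeo hF) Prod.fst α (fun x => (FF_props hF x).2.2) n x

def Factor.refl (X : Sys) : Factor X X := ⟨id, continuous_id, Function.surjective_id, fun _ => rfl⟩

def toPoint (X : Sys) : Factor X pointSys :=
  ⟨fun _ => PUnit.unit, continuous_const, fun _ => ⟨Classical.arbitrary _, rfl⟩, fun _ => rfl⟩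

noncomputable def toRot {α : B} {F : C(E, E) × C(E, E)} (hF : F ∈ FF α) :
    Factor (genSys hF) (rotSys α) :=
  ⟨fun x : E => x.1, continuous_fst, fun y => ⟨(y, 1), rfl⟩, fun x => (FF_props hF x).2.2⟩

lemma zpow_sq {Z : Type} [TopologicalSpace Z] (T : Z ≃ₜ Z) (n : ℤ) (p : Z × Z) :
    ((T.prodCongr (T ^ 2)) ^ n) p = ((T ^ n) p.1, (T ^ (2 * n)) p.2) := by
  rw [zpow_prodCongr, zpow_mul]
  rfl

/-- The saturated closed sets. -/
def W (p : E × E) : Set (E × E) := {q | q.2.1 - p.2.1 = 2 • (q.1.1 - p.1.1)}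

lemma isClosed_W (p : E × E) : IsClosed (W p) :=
  isClosed_eq (by fun_prop) (by fun_prop)

lemma W_eq {p q : E × E} (h : q ∈ W p) : W q = W p := by
  have h' : q.2.1 - p.2.1 = 2 • (q.1.1 - p.1.1) := h
  ext r
  show r.2.1 - q.2.1 = 2 • (r.1.1 - q.1.1) ↔ r.2.1 - p.2.1 = 2 • (r.1.1 - p.1.1)
  have e1 : r.2.1 - p.2.1 = (r.2.1 - q.2.1) + (q.2.1 - p.2.1) := by abel
  have e2 : 2 • (r.1.1 - p.1.1) = 2 • (r.1.1 - q.1.1) + 2 • (q.1.1 - p.1.1) := by
    rw [← nsmul_add]; congr 1; abel
  rw [e1, e2, h']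
  exact (add_left_inj _).symm

section generic

variable {α : B} {F : C(E, E) × C(E, E)} (hF : F ∈ FF α)

lemma mem_W_orbit (n : ℤ) (p : E × E) :
    (((homeo hF).prodCongr ((homeo hF) ^ 2)) ^ n) p ∈ W p := by
  rw [zpow_sq]
  show (((homeo hF) ^ (2 * n)) p.2).1 - p.2.1 = 2 • ((((homeo hF) ^ n) p.1).1 - p.1.1)
  rw [homeo_fst, homeo_fst, add_sub_cancel_left, add_sub_cancel_left, mul_zsmul]
  rw [two_nsmul, two_zsmul]

lemma orbit_closure (hD : ∀ n : ℕ, F ∈ UD (1 / ((n : ℝ) + 1))) (p : E × E) :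
    closure (Set.range fun n : ℤ => (((homeo hF).prodCongr ((homeo hF) ^ 2)) ^ n) p) = W p := by
  apply Set.Subset.antisymm
  · refine closure_minimal ?_ (isClosed_W p)
    rintro _ ⟨n, rfl⟩
    exact mem_W_orbit hF n p
  · intro q hq
    rw [Metric.mem_closure_iff]
    intro ε hε
    obtain ⟨n, hn⟩ := exists_nat_one_div_lt hε
    obtain ⟨m, hm1, hm2⟩ := hD n (p, q) hq
    refine ⟨_, ⟨(m : ℤ), rfl⟩, ?_⟩
    simp only [zpow_sq]
    have e2 : ((homeo hF) ^ (2 * (m : ℤ))) p.2 = (F.1)^[2 * m] p.2 := by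
      have := homeo_pow hF (2 * m) p.2
      push_cast at this
      exact this
    rw [homeo_pow, e2, dist_comm, Prod.dist_eq]
    exact max_lt (hm1.trans hn) (hm2.trans hn)

lemma gen_minimalPoint (hD : ∀ n : ℕ, F ∈ UD (1 / ((n : ℝ) + 1))) (p : E × E) :
    IsMinimalPoint ((homeo hF).prodCongr ((homeo hF) ^ 2)) p := by
  intro w hw
  rw [orbit_closure hF hD] at hw ⊢
  rw [orbit_closure hF hD]
  exact W_eq hw

lemma gen_minimal (hD : ∀ n : ℕ, F ∈ UD (1 / ((n : ℝ) + 1))) (x : E) :
    Dense (Set.range fun n : ℤ => ((homeo hF) ^ n) x) := by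
  rw [Metric.dense_iff]
  intro y r hr
  obtain ⟨n, hn⟩ := exists_nat_one_div_lt hr
  have hq : ((y, (x.1 + 2 • (y.1 - x.1), (1 : Circle))) : E × E) ∈ W (x, x) := by
    show (x.1 + 2 • (y.1 - x.1)) - x.1 = 2 • (y.1 - x.1)
    rw [add_sub_cancel_left]
  obtain ⟨m, hm1, hm2⟩ := hD n ((x, x), (y, (x.1 + 2 • (y.1 - x.1), (1 : Circle)))) hq
  refine ⟨((homeo hF) ^ (m : ℤ)) x, ?_, ⟨m, rfl⟩⟩
  rw [homeo_pow, Metric.mem_ball]
  exact hm1.trans hn

lemma gen_proximal (hP : ∀ n : ℕ, F ∈ UP (1 / ((n : ℝ) + 1))) (x x' : E) (hx : x.1 = x'.1) :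
    ⨅ n : ℤ, dist (((homeo hF) ^ n) x) (((homeo hF) ^ n) x') = 0 := by
  have hb : BddBelow (Set.range fun n : ℤ => dist (((homeo hF) ^ n) x) (((homeo hF) ^ n) x')) :=
    ⟨0, by rintro _ ⟨n, rfl⟩; exact dist_nonneg⟩
  refine le_antisymm ?_ (le_ciInf fun n => dist_nonneg)
  refine le_of_forall_pos_lt_add fun ε hε => ?_
  obtain ⟨n, hn⟩ := exists_nat_one_div_lt hε
  obtain ⟨m, hm⟩ := hP n (x, x') hx
  refine lt_of_le_of_lt (ciInf_le hb (m : ℤ)) ?_
  simp only [homeo_pow, zero_add]
  exact lt_trans hm hn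

lemma refl_proximal (X : Sys) : (Factor.refl X).Proximal := by
  intro x x' h
  have h' : x = x' := h
  subst h'
  simp

lemma dist_rot (α : B) (n : ℤ) (x y : B) :
    dist (((Homeomorph.addRight α) ^ n) x) (((Homeomorph.addRight α) ^ n) y) = dist x y := by
  have h1 : ∀ z : B, ((Homeomorph.addRight α) ^ n) z = z + n • α := fun z =>
    zpow_cocycle (Homeomorph.addRight α) id α (fun _ => rfl) n z
  rw [h1, h1, dist_add_right]

lemma toPoint_isometric (α : B) : (toPoint (rotSys α)).Isometric := by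
  intro ε hε
  exact ⟨ε, hε, fun x x' _ hd n => lt_of_eq_of_lt (dist_rot α n x x') hd⟩

lemma rot_equicont (α : B) : (rotSys α).Equicont := by
  intro x
  rw [Metric.equicontinuousAt_iff]
  intro ε hε
  refine ⟨ε, hε, fun y hy n => ?_⟩
  rw [dist_comm] at hy
  exact lt_of_eq_of_lt (dist_rot α n x y) hy

/-- The three levels of the tower. -/
noncomputable def lev : Fin 3 → Sys
  | 0 => pointSys
  | 1 => rotSys α
  | 2 => genSys hF

noncomputable def levProj : ∀ i j : Fin 3, i ≤ j → Factor (lev hF j) (lev hF i)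
  | 0, j, _ => toPoint (lev hF j)
  | 1, 1, _ => Factor.refl _
  | 1, 2, _ => toRot hF
  | 2, 2, _ => Factor.refl _
  | 1, 0, h => absurd h (by decide)
  | 2, 0, h => absurd h (by decide)
  | 2, 1, h => absurd h (by decide)

noncomputable def tower (hP : ∀ n : ℕ, F ∈ UP (1 / ((n : ℝ) + 1))) : Tower (Fin 3) where
  sys := lev hF
  proj := levProj hF
  proj_refl
    | 0, _ => rfl
    | 1, _ => rfl
    | 2, _ => rfl
  proj_trans
    | 0, _, _, _, _, _ => rfl
    | 1, 1, 1, _, _, _ => rfl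
    | 1, 1, 2, _, _, _ => rfl
    | 1, 2, 2, _, _, _ => rfl
    | 2, 2, 2, _, _, _ => rfl
    | 1, 0, _, h, _, _ => absurd h (by decide)
    | 2, 0, _, h, _, _ => absurd h (by decide)
    | 2, 1, _, h, _, _ => absurd h (by decide)
    | 1, 1, 0, _, h, _ => absurd h (by decide)
    | 1, 2, 0, _, h, _ => absurd h (by decide)
    | 1, 2, 1, _, h, _ => absurd h (by decide)
    | 2, 2, 0, _, h, _ => absurd h (by decide)
    | 2, 2, 1, _, h, _ => absurd h (by decide)
  bot := by
    show Subsingleton PUnit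
    infer_instance
  succ
    | 0, 0, h => absurd h.lt (by decide)
    | 0, 1, _ => Or.inr (toPoint_isometric α)
    | 0, 2, h => absurd (by decide : (1 : Fin 3) < 2) (h.2 (by decide : (0 : Fin 3) < 1))
    | 1, 0, h => absurd h.lt (by decide)
    | 1, 1, h => absurd h.lt (by decide)
    | 1, 2, _ => Or.inl (gen_proximal hF hP)
    | 2, 0, h => absurd h.lt (by decide)
    | 2, 1, h => absurd h.lt (by decide)
    | 2, 2, h => absurd h.lt (by decide)
  lim
    | 0, hj, _, _, _, _ => absurd rfl hj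
    | 1, _, hl, _, _, _ => absurd ⟨by decide, by decide⟩ (hl 0)
    | 2, _, hl, _, _, _ => absurd ⟨by decide, by decide⟩ (hl 1)

end generic

theorem result : ∃ (X Y : Sys) (π : Factor X Y), X.IsPI ∧ Y.Equicont ∧ IsOpenMap π.map ∧
    π.Proximal ∧ ¬ Function.Injective π.map ∧
    (∀ x : X.pt, IsMinimalPoint X.prodSq (x, x)) ∧ ∀ p : X.pt × X.pt, IsMinimalPoint X.prodSq p := by
  obtain ⟨F, hF, hP, hD⟩ := exists_generic irrational_sqrt_two
  refine ⟨genSys hF, rotSys _, toRot hF, ⟨gen_minimal hF hD, Fin 3, inferInstance, inferInstance,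
    inferInstance, inferInstance, tower hF hP, Factor.refl _, gen_minimal hF hD,
    refl_proximal _⟩, rot_equicont _, ?_, gen_proximal hF hP, ?_,
    fun x => gen_minimalPoint hF hD (x, x), fun p => gen_minimalPoint hF hD p⟩
  · exact isOpenMap_fst
  · intro h
    have h1 : ((0 : B), (1 : Circle)) = ((0 : B), (-1 : Circle)) := h rfl
    have h2 : (1 : Circle) = -1 := (Prod.mk.inj h1).2
    exact Circle.neg_ne_self 1 h2.symm

end Pool.Agent.Results.MP_20b9c8_an.DiagMinimal
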